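import Mathlib
import Pool.Agent.H57.Code.Lp
import Pool.Agent.H64.Pent.Defs

set_option autoImplicit false
set_option synthInstance.maxSize 2000
set_option maxRecDepth 4000

/-!
Full Q1 of MP_a46c6f_co: the words of even subgraphs of a permutation graph without removable circuit.
`Own p a b i`: the matching edge `i` has all its four neighbouring edges in `(a, b)`.
-/

namespace Pool.Agent.H15.Q

open Pool.Agent.H98.Code Pool.Agent.H57.Code Pool.Agent.H64.Pent

variable {n : ℕ} {p : Equiv.Perm (ZMod n)}

/-- the matching edge `i` is an own edge of the side `(a, b)` -/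
def Own (p : Equiv.Perm (ZMod n)) (a b : ZMod n → ZMod 2) (i : ZMod n) : Prop :=
  a (i - 1) = 1 ∧ a i = 1 ∧ b (p i - 1) = 1 ∧ b (p i) = 1

lemma z2c : ∀ q : ZMod 2, q = 0 ∨ q = 1 := by decide

/-- at a matching edge with the letter `0` all four edges have the same value -/
lemma const_of_zero {a b : ZMod n → ZMod 2} (h : Ev p a b) {i : ZMod n} (h0 : word p a b i = 0) :
    a (i - 1) = a i ∧ b (p i - 1) = a i ∧ b (p i) = a i := by
  have h1 : a (i - 1) + a i = 0 := congrArg Prod.fst h0
  have h2 : a i + b (p i) = 0 := congrArg Prod.snd h0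
  have h3 := h i
  revert h1 h2 h3
  generalize a (i - 1) = x1
  generalize a i = x2
  generalize b (p i - 1) = x3
  generalize b (p i) = x4
  revert x1 x2 x3 x4
  decide

/-- a matching edge with the letter `0` is own on one of the sides -/
lemma own_or {a b : ZMod n → ZMod 2} (h : Ev p a b) {i : ZMod n} (h0 : word p a b i = 0) :
    Own p a b i ∨ Own p (fun i => 1 + a i) (fun j => 1 + b j) i := by
  obtain ⟨h1, h2, h3⟩ := const_of_zero h h0
  rcases z2c (a i) with h4 | h4
  · right
    refine ⟨?_, ?_, ?_, ?_⟩
    · show 1 + a (i - 1) = 1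
      rw [h1, h4, add_zero]
    · show 1 + a i = 1
      rw [h4, add_zero]
    · show 1 + b (p i - 1) = 1
      rw [h2, h4, add_zero]
    · show 1 + b (p i) = 1
      rw [h3, h4, add_zero]
  · left
    exact ⟨h1.trans h4, h4, h2.trans h4, h3.trans h4⟩

lemma Own.zero {a b : ZMod n → ZMod 2} {i : ZMod n} (h : Own p a b i) : word p a b i = 0 := by
  obtain ⟨h1, h2, h3, h4⟩ := h
  unfold word
  rw [h1, h2, h4]
  decide

/-- a nonempty `z`-free side without own edges is alternating -/
lemma alt_of {a b : ZMod n → ZMod 2} (h : Ev p a b) (hz : ZFree (word p a b))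
    (hY : ∀ i, ¬ Own p a b i) : Alt p a b := by
  intro i
  have h1 := h i
  have h2 := hz i
  have h3 := hY i
  unfold word z at h2
  unfold Own at h3
  revert h1 h2 h3
  generalize a (i - 1) = x1
  generalize a i = x2
  generalize b (p i - 1) = x3
  generalize b (p i) = x4
  revert x1 x2 x3 x4
  decide

lemma kself : ∀ u : K, u + u = 0 := by decide

/-- a bridge of the complement of an alternating edge set splits its word -/
lemma splits_of_side {a b s t : ZMod n → ZMod 2} {e : ZMod n} (h : Ev p a b)
    (hs : Side p a b e s t) : Splits (Lp p) (word p a b) e := by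
  obtain ⟨⟨h1, h2, h3, h4⟩, ⟨h5, h6, h7, h8⟩, h9⟩ := hs
  have hev : Ev p s t := by
    intro i
    by_cases hi : i = e
    · rw [hi, h5, h6, h7, h8]; decide
    · obtain ⟨v, q1, q2, q3, q4⟩ := h9 i hi
      rw [q1, q2, q3, q4]
      have := h i
      clear q1 q2 q3 q4
      revert this
      generalize a (i - 1) = x1
      generalize a i = x2
      generalize b (p i - 1) = x3
      generalize b (p i) = x4
      revert x1 x2 x3 x4 v
      decide
  have he : word p a b e = 0 := by
    unfold word
    rw [h1, h2, h4]; decide
  have hse : word p s t e = z := by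
    unfold word z
    rw [h5, h6, h8]; decide
  refine ⟨word p s t, word_mem p s t hev, word p a b + word p s t,
    (Lp p).add_mem (word_mem p a b h) (word_mem p s t hev), ?_, hse, ?_, ?_⟩
  · funext i
    show word p s t i + (word p a b i + word p s t i) = word p a b i
    rw [add_left_comm, kself, add_zero]
  · show word p a b e + word p s t e = z
    rw [he, hse, zero_add]
  · intro i hi
    obtain ⟨v, q1, q2, q3, q4⟩ := h9 i hi
    show word p s t i = 0 ∨ word p a b i + word p s t i = 0
    unfold word
    rw [q1, q2, q4]
    have := h i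
    clear q1 q2 q3 q4
    revert this
    generalize a (i - 1) = x1
    generalize a i = x2
    generalize b (p i - 1) = x3
    generalize b (p i) = x4
    revert x1 x2 x3 x4 v
    decide

/-- **(WC)** without removable circuits a nonempty side of a `z`-free word has an own edge, or the word
splits -/
theorem wc (hC : Crit p) {a b : ZMod n → ZMod 2} (h : Ev p a b) (hz : ZFree (word p a b))
    (h0 : ∃ i, a i ≠ 0 ∨ b i ≠ 0) :
    (∃ g, Splits (Lp p) (word p a b) g) ∨ ∃ i, Own p a b i := by
  by_cases hY : ∃ i, Own p a b i
  · exact Or.inr hY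
  · left
    push Not at hY
    have hA := alt_of h hz hY
    have h1 : ∃ i, a i = 1 := by
      by_contra hcon
      push Not at hcon
      have ha : ∀ i, a i = 0 := fun i => (z2c (a i)).resolve_right (hcon i)
      obtain ⟨j, hj⟩ := h0
      rcases hj with hj | hj
      · exact hj (ha j)
      · rcases hA (p.symm j) with q | q
        · apply hj
          have := q.2.2.2
          rwa [Equiv.apply_symm_apply] at this
        · have := q.1
          rw [ha, ha] at this
          exact absurd this (by decide)
    obtain ⟨e, s, t, hs⟩ := hC a b hA h1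
    exact ⟨e, splits_of_side h hs⟩

/-- the part of `(s, t)` in the side `(a, b)` -/
theorem part_ev {a b s t : ZMod n → ZMod 2} (h : Ev p a b) (hz : ZFree (word p a b)) (h' : Ev p s t)
    (hle : ∀ i, word p a b i ≠ 0 → word p s t i = 0 ∨ word p s t i = word p a b i) :
    Ev p (fun i => a i * s i) (fun j => b j * t j) := by
  intro i
  have h1 := h i
  have h2 := hz i
  have h3 := h' i
  have h4 := hle i
  unfold word z at h2
  unfold word at h4
  show a (i - 1) * s (i - 1) + a i * s i = b (p i - 1) * t (p i - 1) + b (p i) * t (p i)
  revert h1 h2 h3 h4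
  generalize a (i - 1) = x1
  generalize a i = x2
  generalize b (p i - 1) = x3
  generalize b (p i) = x4
  generalize s (i - 1) = y1
  generalize s i = y2
  generalize t (p i - 1) = y3
  generalize t (p i) = y4
  revert x1 x2 x3 x4 y1 y2 y3 y4
  decide

/-- the word of the part: as `(s, t)` at the own edges of `(a, b)`, `0` at those of the other side, and
`0` or the letter of `(a, b)` elsewhere -/
theorem part_word {a b s t : ZMod n → ZMod 2} (h : Ev p a b) (hz : ZFree (word p a b))
    (h' : Ev p s t)
    (hle : ∀ i, word p a b i ≠ 0 → word p s t i = 0 ∨ word p s t i = word p a b i) (i : ZMod n) :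
    (Own p a b i → word p (fun i => a i * s i) (fun j => b j * t j) i = word p s t i) ∧
    (Own p (fun i => 1 + a i) (fun j => 1 + b j) i →
      word p (fun i => a i * s i) (fun j => b j * t j) i = 0) ∧
    (word p a b i ≠ 0 → word p (fun i => a i * s i) (fun j => b j * t j) i = 0 ∨
      word p (fun i => a i * s i) (fun j => b j * t j) i = word p a b i) := by
  refine ⟨?_, ?_, ?_⟩
  · rintro ⟨h1, h2, h3, h4⟩
    unfold word
    show (a (i - 1) * s (i - 1) + a i * s i, a i * s i + b (p i) * t (p i)) = _
    rw [h1, h2, h4, one_mul, one_mul, one_mul]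
  · rintro ⟨h1, h2, h3, h4⟩
    have g1 : a (i - 1) = 0 := by
      rcases z2c (a (i - 1)) with q | q
      · exact q
      · exfalso; revert h1; show 1 + a (i - 1) = 1 → False; rw [q]; decide
    have g2 : a i = 0 := by
      rcases z2c (a i) with q | q
      · exact q
      · exfalso; revert h2; show 1 + a i = 1 → False; rw [q]; decide
    have g4 : b (p i) = 0 := by
      rcases z2c (b (p i)) with q | q
      · exact q
      · exfalso; revert h4; show 1 + b (p i) = 1 → False; rw [q]; decide
    unfold word
    show (a (i - 1) * s (i - 1) + a i * s i, a i * s i + b (p i) * t (p i)) = 0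
    rw [g1, g2, g4, zero_mul, zero_mul, zero_mul, add_zero]
    rfl
  · have h1 := h i
    have h2 := hz i
    have h3 := h' i
    have h4 := hle i
    unfold word z at h2
    unfold word at h4 ⊢
    show _ → (a (i - 1) * s (i - 1) + a i * s i, a i * s i + b (p i) * t (p i)) = 0 ∨
      (a (i - 1) * s (i - 1) + a i * s i, a i * s i + b (p i) * t (p i)) = _
    revert h1 h2 h3 h4
    generalize a (i - 1) = x1
    generalize a i = x2
    generalize b (p i - 1) = x3
    generalize b (p i) = x4
    generalize s (i - 1) = y1
    generalize s i = y2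
    generalize t (p i - 1) = y3
    generalize t (p i) = y4
    revert x1 x2 x3 x4 y1 y2 y3 y4
    decide

end Pool.Agent.H15.Q
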